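import Mathlib
import Pool.Agent.Helper982_KG.All

/-!
# The divergence multiplicative Khintchine-Groshev theorem for nondegenerate maps

`result`: let `d, n ≥ 1`, let `U` be an open subset of `ℝ^d`, let `f : U → ℝ^n` be nondegenerate at
almost every point of `U`, and let `ψ : (0,∞) → (0,∞)` be monotonic with
`∑ (log h)^(n-1) ψ(h) = ∞`.  Then for almost every `x ∈ U` the inequality
`|p + q₁ f₁(x) + ... + qₙ fₙ(x)| < ψ(Π₊(q))` has infinitely many solutions `(p, q) ∈ ℤ × ℤ^n`.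
-/

set_option autoImplicit false

open MeasureTheory Set

namespace Pool.Agent.Results.MP_99fd1a_nt.DivergenceMKG

/-- `Π₊(q)`: the product of the `|q i|` over all `i` with `q i ≠ 0` (empty product `= 1`) -/
noncomputable def PiPlus {n : ℕ} (q : Fin n → ℤ) : ℝ :=
  ∏ i, if q i = 0 then 1 else |(q i : ℝ)|

/-- `f` is `l`-nondegenerate at `x₀`: it is `C^l` on a neighbourhood of `x₀`, and the partial
derivatives of `f` at `x₀` of the orders `1, ..., l` span `ℝ^n` -/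
def NondegenerateAt {d n : ℕ} (l : ℕ) (f : (Fin d → ℝ) → (Fin n → ℝ)) (x₀ : Fin d → ℝ) : Prop :=
  (∃ V : Set (Fin d → ℝ), IsOpen V ∧ x₀ ∈ V ∧ ContDiffOn ℝ l f V) ∧
    Submodule.span ℝ {v : Fin n → ℝ | ∃ k : ℕ, 1 ≤ k ∧ k ≤ l ∧ ∃ w : Fin k → Fin d,
      v = iteratedFDeriv ℝ k f x₀ (fun j => Pi.single (w j) 1)} = ⊤

theorem result (d n : ℕ) (hd : 1 ≤ d) (hn : 1 ≤ n) (U : Set (Fin d → ℝ)) (hU : IsOpen U)
    (f : (Fin d → ℝ) → (Fin n → ℝ))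
    (hf : ∀ᵐ x ∂(volume.restrict U), ∃ l : ℕ, NondegenerateAt l f x)
    (ψ : ℝ → ℝ) (hψ : ∀ x, 0 < x → 0 < ψ x) (hmono : MonotoneOn ψ (Ioi 0) ∨ AntitoneOn ψ (Ioi 0))
    (hdiv : ¬ Summable (fun h : ℕ => Real.log (h + 1) ^ (n - 1) * ψ (h + 1))) :
    ∀ᵐ x ∂(volume.restrict U), {z : ℤ × (Fin n → ℤ) |
      |(z.1 : ℝ) + ∑ i, (z.2 i : ℝ) * f x i| < ψ (PiPlus z.2)}.Infinite :=
  Helper982_KG.All.main d n hd hn U hU f hf ψ hψ hmono hdiv

end Pool.Agent.Results.MP_99fd1a_nt.DivergenceMKG
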